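import Pool.Agent.R902.Del3

/-!
# MP_c45f9b_nt

For every integer `x` and odd prime `p`,
`∑_{k<p} (-1)^k (2k+1) D_k(x)^4 ≡ p ∑_{k ≤ (p-1)/2} (-1)^k C(2k,k)^2 (x^2+x)^k (2x+1)^{2k} (mod p^3)`.
-/

namespace Pool.Agent.Results.MP_c45f9b_nt.FourthPowers

open Finset

/-- The Delannoy polynomial `D_n(x) = ∑_{k=0}^n C(n,k) C(n+k,k) x^k` at an integer `x`. -/
def D (n : ℕ) (x : ℤ) : ℤ := ∑ k ∈ range (n + 1), (n.choose k : ℤ) * ((n + k).choose k : ℤ) * x ^ k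

/-- `S_p(x) = ∑_{k=0}^{p-1} (-1)^k (2k+1) D_k(x)^4`. -/
def S (p : ℕ) (x : ℤ) : ℤ := ∑ k ∈ range p, (-1) ^ k * (2 * (k : ℤ) + 1) * D k x ^ 4

/-- `T_p(x) = ∑_{k=0}^{(p-1)/2} (-1)^k C(2k,k)^2 (x^2+x)^k (2x+1)^{2k}`. -/
def T (p : ℕ) (x : ℤ) : ℤ := ∑ k ∈ range ((p - 1) / 2 + 1),
  (-1) ^ k * ((2 * k).choose k : ℤ) ^ 2 * (x ^ 2 + x) ^ k * (2 * x + 1) ^ (2 * k)

theorem result (x : ℤ) (p : ℕ) (hp : p.Prime) (h2 : p ≠ 2) :
    (p : ℤ) ^ 3 ∣ S p x - (p : ℤ) * T p x := by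
  have := Fact.mk hp
  obtain ⟨n, hn⟩ : ∃ n, p = 2 * n + 1 := by
    rcases hp.eq_two_or_odd with h | h
    · exact absurd h h2
    · exact ⟨p / 2, by omega⟩
  have h1 := R902.Del3.main p n hn (x * (x + 1))
  have e1 : S p x = (p : ℤ) * ∑ l ∈ range p, ((p - 1).choose l : ℤ) *
      ((p - 1 + 1 + l).choose l : ℤ) * R902.Del1.E (R902.Del3.e (x * (x + 1))) l := by
    have h := R902.Del3.S_eq (p - 1) x
    rw [Nat.sub_add_cancel hp.one_le] at h ⊢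
    have h3 : (-1 : ℤ) ^ (p - 1) = 1 := by
      rw [show p - 1 = 2 * n by omega, pow_mul]
      norm_num
    have h4 : ((p - 1 : ℕ) : ℤ) + 1 = p := by
      have := hp.one_le
      omega
    rw [h3, h4, one_mul] at h
    exact h
  have e2 : T p x = ∑ k ∈ range (n + 1), ((2 * k).choose k : ℤ) ^ 2 *
      (-(x * (x + 1)) * (1 - 4 * -(x * (x + 1)))) ^ k := by
    rw [T, show (p - 1) / 2 = n by omega]
    refine Finset.sum_congr rfl fun k _ => ?_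
    have e3 : (-(x * (x + 1)) * (1 - 4 * -(x * (x + 1)))) = (-1) * (x ^ 2 + x) * (2 * x + 1) ^ 2 := by
      ring
    rw [e3, mul_pow, mul_pow, ← pow_mul]
    ring
  rw [e1, e2, ← mul_sub, pow_succ (p : ℤ) 2, mul_comm ((p : ℤ) ^ 2) (p : ℤ)]
  apply mul_dvd_mul_left
  have h5 := sub_eq_zero.2 h1
  rw [← Int.cast_sub, ZMod.intCast_zmod_eq_zero_iff_dvd] at h5
  push_cast at h5
  exact h5

end Pool.Agent.Results.MP_c45f9b_nt.FourthPowers
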